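import Pool.Agent.Helper95.BG.Goals

set_option autoImplicit false

/-!
# Boolean grammars: the universal function is a linear-space function (packet LSG)
-/

namespace Pool.Agent.Helper85.BG.PkLSG

open Pool.Agent.Helper65.LinSpace Pool.Agent.Helper78 Pool.Agent.Helper78.Mpc
  Pool.Agent.Helper78.Xor Finset Pool.Agent.Helper95.BG

variable {α : Type} [Ctx α]

theorem LS.cp (i : ℕ) : ∀ {e : α → ℕ}, LS e → LS (fun a => cp i (e a)) := by
  induction i with
  | zero =>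
    intro e he
    show LS (fun a => (Nat.unpair (e a)).1)
    fun_prop
  | succ i ih =>
    intro e he
    show LS (fun a => Helper95.BG.cp i (Nat.unpair (e a)).2)
    exact ih (by fun_prop)

theorem LS.bS {n : α → ℕ} (hn : LS n) : LS (fun a => bS (n a)) := by
  unfold Helper95.BG.bS
  fun_prop

theorem LS.mS {n : α → ℕ} (hn : LS n) : LS (fun a => mS (n a)) := by
  unfold Helper95.BG.mS
  have := LS.bS hn
  fun_prop

theorem LS.uN {i x z : α → ℕ} (hi : LS i) (hx : LS x) (hz : LS z) :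
    LS (fun a => uN (i a) (x a) (z a)) := by
  unfold Helper95.BG.uN
  fun_prop

/-- The bases. -/
theorem LS.beta {x : α → ℕ} (hx : LS x) : LS (fun a => 2 ^ (2 * ll (Nat.log 2 (x a)))) := by
  refine LS.pow_of_le (f := fun _ => 2) (by fun_prop) (by fun_prop)
    (C := fun z => CX (x z)) (by fun_prop) fun z => two_pow_le_CX ?_
  have := ll_le (Nat.log 2 (x z))
  omega

theorem LS.isL {Bg MC x x' z i t : α → ℕ} (hBg : LS Bg) (hMC : LS MC) (hx : LS x) (hx' : LS x')
    (hz : LS z) (hi : LS i) (ht : LS t) :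
    LS (fun a => isL (Bg a) (MC a) (LW (Nat.log 2 (x a))) (2 ^ (2 * ll (Nat.log 2 (x a))))
      (x' a) (z a) (i a) (t a)) := by
  unfold Helper95.BG.isL
  have hβ := LS.beta hx
  exact LS.univ (C := fun a => CX (x a)) (by fun_prop) (by fun_prop) hβ (LS.uN hi hx' hz)
    (by fun_prop) (fun a => by positivity) (fun a => beta_le _)

theorem isL_lt (Bg MC Λ β x z i t : ℕ) : isL Bg MC Λ β x z i t < 2 := univ_lt _ _ _ _

theorem LS.lenL {nT Bg MC x z : α → ℕ} (hnT : LS nT) (hBg : LS Bg) (hMC : LS MC) (hx : LS x)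
    (hz : LS z) :
    LS (fun a => lenL (nT a) (Bg a) (MC a) (LW (Nat.log 2 (x a)))
      (2 ^ (2 * ll (Nat.log 2 (x a)))) (Helper95.BG.mS (Nat.log 2 (x a))) (x a) (z a)) := by
  unfold Helper95.BG.lenL
  refine LS.sum_le (N := fun a => Helper95.BG.mS (Nat.log 2 (x a))) (B := fun _ => 1)
    (f := fun a i => lt01 0 (∑ t ∈ range (nT a), Helper95.BG.isL (Bg a) (MC a)
      (LW (Nat.log 2 (x a))) (2 ^ (2 * ll (Nat.log 2 (x a)))) (x a) (z a) i t))
    ?_ (LS.mS (by fun_prop)) (by fun_prop) ?_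
  · refine LS.lt01 (LS.const 0) ?_
    refine LS.sum_le (α := α × ℕ) (N := fun w => nT w.1) (B := fun _ => 1)
      (f := fun w t => Helper95.BG.isL (Bg w.1) (MC w.1)
      (LW (Nat.log 2 (x w.1))) (2 ^ (2 * ll (Nat.log 2 (x w.1)))) (x w.1) (z w.1) w.2 t)
      ?_ (by fun_prop) (by fun_prop) ?_
    · exact LS.isL (α := (α × ℕ) × ℕ) (Bg := fun w => Bg w.1.1) (MC := fun w => MC w.1.1)
        (x := fun w => x w.1.1) (x' := fun w => x w.1.1) (z := fun w => z w.1.1)
        (i := fun w => w.1.2) (t := fun w => w.2)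
        (by fun_prop) (by fun_prop) (by fun_prop) (by fun_prop) (by fun_prop) (by fun_prop)
        (by fun_prop)
    · intro w t _
      exact Nat.lt_succ_iff.1 (isL_lt _ _ _ _ _ _ _ _)
  · intro a i _
    exact Nat.lt_succ_iff.1 (lt01_lt_two _ _)

theorem LS.mL {nT Bg MC x z : α → ℕ} (hnT : LS nT) (hBg : LS Bg) (hMC : LS MC) (hx : LS x)
    (hz : LS z) : LS (fun a => mL (nT a) (Bg a) (MC a) (x a) (z a)) := by
  unfold Helper95.BG.mL
  have h1 := LS.lenL hnT hBg hMC hx hz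
  have h2 : LS (fun a => Helper95.BG.mS (Nat.log 2 (x a))) := LS.mS (by fun_prop)
  exact LS.min (LS.add (by fun_prop) h1) h2

theorem LS.ltL {q nT Bg MC LT IT x z : α → ℕ} (hQ : LS (fun a => 2 ^ q a))
    (hnT : LS nT) (hBg : LS Bg)
    (hMC : LS MC) (hLT : LS LT) (hIT : LS IT) (hx : LS x) (hz : LS z) :
    LS1 (fun a i => ltL (q a) (nT a) (Bg a) (MC a) (LT a) (IT a) (LW (Nat.log 2 (x a)))
      (2 ^ (2 * ll (Nat.log 2 (x a)))) (x a) (z a) i) := by
  unfold LS1 Helper95.BG.ltL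
  have hQ1 : LS (fun w : α × ℕ => 2 ^ q w.1) :=
    LS.comp (g := fun a => 2 ^ q a) (f := fun w : α × ℕ => w.1) hQ (by fun_prop)
  have hQ2 : LS (fun w : (α × ℕ) × ℕ => 2 ^ q w.1.1) :=
    LS.comp (g := fun a => 2 ^ q a) (f := fun w : (α × ℕ) × ℕ => w.1.1) hQ (by fun_prop)
  refine LS.ifz (by fun_prop) ?_ ?_
  · refine LS.sumMod (α := α × ℕ) (N := fun w => nT w.1) (p := fun w => 2 ^ q w.1)
      (f := fun w t => Helper95.BG.isL (Bg w.1) (MC w.1) (LW (Nat.log 2 (x w.1)))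
        (2 ^ (2 * ll (Nat.log 2 (x w.1)))) (x w.1) (z w.1) (w.2 - Nat.log 2 (x w.1)) t *
        dig (2 ^ q w.1) (LT w.1) t) ?_ (by fun_prop) hQ1 (fun w => by positivity)
    refine LS.mul ?_ (LS.dig hQ2 (by fun_prop) (by fun_prop))
    exact LS.isL (α := (α × ℕ) × ℕ) (Bg := fun w => Bg w.1.1) (MC := fun w => MC w.1.1)
        (x := fun w => x w.1.1) (x' := fun w => x w.1.1) (z := fun w => z w.1.1)
        (i := fun w => w.1.2 - Nat.log 2 (x w.1.1)) (t := fun w => w.2)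
        (by fun_prop) (by fun_prop) (by fun_prop) (by fun_prop) (by fun_prop) (by fun_prop)
        (by fun_prop)
  · exact LS.dig hQ1 (by fun_prop) (by fun_prop)

theorem ltL_lt (q nT Bg MC LT IT Λ β x z i : ℕ) :
    ltL q nT Bg MC LT IT Λ β x z i < 2 ^ q := by
  unfold ltL ifz
  split_ifs
  · exact Nat.mod_lt _ (by positivity)
  · exact dig_lt (by positivity) _ _

theorem LS.valG (lse : G_LSE) (par : G_PAR) {e x z : α → ℕ} (he : LS e) (hx : LS x) (hz : LS z) :
    LS (fun a => valG (e a) (x a) (z a)) := by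
  have hcp : ∀ i, LS (fun a => Helper95.BG.cp i (e a)) := fun i => LS.cp i he
  have c0 := hcp 0
  have c1 := hcp 1
  have c2 := hcp 2
  have c3 := hcp 3
  have c4 := hcp 4
  have c5 := hcp 5
  have c6 := hcp 6
  have c7 := hcp 7
  have hn : LS (fun a => Nat.log 2 (x a)) := by fun_prop
  have hl : LS (fun a => ll (Nat.log 2 (x a))) := by fun_prop
  have hq : LS (fun a => min (Helper95.BG.cp 0 (e a)) (ll (Nat.log 2 (x a)))) := LS.min c0 hl
  have hC : LS (fun a => CX (x a)) := by fun_prop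
  have hm : LS (fun a => Helper95.BG.mL (Helper95.BG.cp 3 (e a)) (Helper95.BG.cp 4 (e a))
    (Helper95.BG.cp 5 (e a)) (x a) (z a)) := LS.mL c3 c4 c5 hx hz
  have hp := fun a => par (x a) (min (Helper95.BG.cp 0 (e a)) (ll (Nat.log 2 (x a))))
    (Helper95.BG.mL (Helper95.BG.cp 3 (e a)) (Helper95.BG.cp 4 (e a))
    (Helper95.BG.cp 5 (e a)) (x a) (z a)) (min_le_right _ _) (min_le_right _ _)
  have hQ : LS (fun a => 2 ^ min (Helper95.BG.cp 0 (e a)) (ll (Nat.log 2 (x a)))) :=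
    LS.pow_of_le (f := fun _ => 2) (by fun_prop) hq hC fun a => (hp a).1
  unfold Helper95.BG.valG
  exact lse α _ _ _ _ _ _ _ _ hq (LS.bS hn) hl hm c1 c2 hC
    (LS.ltL (q := fun a => min (Helper95.BG.cp 0 (e a)) (ll (Nat.log 2 (x a))))
      hQ c3 c4 c5 c6 c7 hx hz)
    (fun a i => ltL_lt _ _ _ _ _ _ _ _ _ _ _) (fun a => (hp a).1) (fun a => (hp a).2.1)
    (fun a => (hp a).2.2.1) (fun a => (hp a).2.2.2)

theorem LS.accG (lse : G_LSE) (par : G_PAR) {e x z : α → ℕ} (he : LS e) (hx : LS x) (hz : LS z) :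
    LS (fun a => accG (e a) (x a) (z a)) := by
  have hcp : ∀ i, LS (fun a => Helper95.BG.cp i (e a)) := fun i => LS.cp i he
  have c3 := hcp 3
  have c4 := hcp 4
  have c5 := hcp 5
  have c8 := hcp 8
  have c9 := hcp 9
  unfold Helper95.BG.accG
  exact LS.ifz (LS.mL c3 c4 c5 hx hz) (LS.mod c9 (LS.const 2))
    (LS.dig (LS.const 2) c8 (LS.valG lse par he hx hz))

theorem accG_le (e x z : ℕ) : accG e x z ≤ 1 := by
  unfold accG ifz
  split_ifs
  · omega
  · exact Nat.lt_succ_iff.1 (dig_lt (by norm_num) _ _)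

theorem thm (lse : G_LSE) (par : G_PAR) : G_LSG := by
  intro c
  unfold UG
  refine LS.sum_le (N := fun z : ℕ × ℕ × ℕ => 2 ^ (c * Nat.log 2 z.2.2 + 1)) (B := fun _ => 1)
    (f := fun z y => lt01 0 y * Helper95.BG.accG z.1 z.2.2 (Avg.catN z.2.1 y)) ?_ ?_
    (by fun_prop) ?_
  · refine LS.mul (by fun_prop) ?_
    exact LS.accG lse par (e := fun w : (ℕ × ℕ × ℕ) × ℕ => w.1.1) (x := fun w => w.1.2.2)
      (z := fun w => Avg.catN w.1.2.1 w.2) (by fun_prop) (by fun_prop)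
      (Avg.LS.catN (by fun_prop) (by fun_prop))
  · refine LS.pow_of_le (f := fun _ => 2) (g := fun z : ℕ × ℕ × ℕ => c * Nat.log 2 z.2.2 + 1)
      (C := fun z : ℕ × ℕ × ℕ => (z.2.2 + 2) ^ (2 * (c + 1))) (by fun_prop) (by fun_prop)
      (by fun_prop) fun a => ?_
    refine le_trans ?_ (two_pow_log_le a.2.2 (c + 1))
    refine Nat.pow_le_pow_right (by norm_num) ?_
    ring_nf
    omega
  · intro z y _
    calc _ ≤ 1 * 1 := Nat.mul_le_mul (Nat.lt_succ_iff.1 (lt01_lt_two _ _)) (accG_le _ _ _)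
      _ = 1 := rfl

end Pool.Agent.Helper85.BG.PkLSG
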